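import Mathlib

/-!
Tools for the placement of `n c` coins on the `n × n` board with at most `c` coins on every row,
column and diagonal. The cell `(i, j)` is given the coordinates `(i, κ)` with `j = (2 i + κ) % n`.
-/

set_option autoImplicit false

open Finset

namespace Pool.Agent.R164.Coins

/-- `S` is a set of `n * c` cells of the `n × n` board such that every row, every column and every
diagonal of either direction contains at most `c` cells of `S`. -/
def IsPlacement (n c : ℕ) (S : Finset (ℕ × ℕ)) : Prop :=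
  (∀ p ∈ S, p.1 < n ∧ p.2 < n) ∧ S.card = n * c ∧
  (∀ a : ℕ, (S.filter (fun p => p.1 = a)).card ≤ c) ∧
  (∀ b : ℕ, (S.filter (fun p => p.2 = b)).card ≤ c) ∧
  (∀ k : ℕ, (S.filter (fun p => p.1 + p.2 = k)).card ≤ c) ∧
  (∀ d : ℤ, (S.filter (fun p => (p.1 : ℤ) - (p.2 : ℤ) = d)).card ≤ c)

/-- the column of the cell with coordinates `(i, κ)` -/
def col (n : ℕ) (p : ℕ × ℕ) : ℕ := (2 * p.1 + p.2) % n

theorem col_spec {n : ℕ} {p : ℕ × ℕ} (h1 : p.1 < n) (h2 : p.2 < n) :
    col n p < n ∧ (2 * p.1 + p.2 = col n p ∨ 2 * p.1 + p.2 = col n p + n ∨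
      2 * p.1 + p.2 = col n p + 2 * n) := by
  have hn : 0 < n := by omega
  have h3 : col n p < n := Nat.mod_lt _ hn
  refine ⟨h3, ?_⟩
  have h4 : col n p + n * ((2 * p.1 + p.2) / n) = 2 * p.1 + p.2 := Nat.mod_add_div _ _
  have h5 : (2 * p.1 + p.2) / n < 3 := by
    rw [Nat.div_lt_iff_lt_mul hn]; omega
  generalize (2 * p.1 + p.2) / n = q at h4 h5
  interval_cases q <;> omega

theorem exists_of {n c : ℕ} (P : Finset (ℕ × ℕ)) (hP : ∀ p ∈ P, p.1 < n ∧ p.2 < n)
    (hcard : P.card = n * c) (hrow : ∀ a : ℕ, (P.filter (fun p => p.1 = a)).card ≤ c)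
    (hcol : ∀ b : ℕ, (P.filter (fun p => col n p = b)).card ≤ c)
    (hanti : ∀ k : ℕ, (P.filter (fun p => p.1 + col n p = k)).card ≤ c)
    (hdiag : ∀ d : ℤ, (P.filter (fun p => (p.1 : ℤ) - (col n p : ℤ) = d)).card ≤ c) :
    ∃ S : Finset (ℕ × ℕ), IsPlacement n c S := by
  classical
  set φ : ℕ × ℕ → ℕ × ℕ := fun p => (p.1, col n p) with hφ
  have hinj : Set.InjOn φ (P : Set (ℕ × ℕ)) := by
    intro p hp q hq h
    obtain ⟨p1, p2⟩ := hP p hp
    obtain ⟨q1, q2⟩ := hP q hq
    obtain ⟨h3, h4⟩ := col_spec p1 p2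
    obtain ⟨h5, h6⟩ := col_spec q1 q2
    simp only [hφ, Prod.mk.injEq] at h
    obtain ⟨e1, e2⟩ := h
    apply Prod.ext e1
    omega
  have hf : ∀ (L : ℕ × ℕ → Prop) [DecidablePred L],
      ((P.image φ).filter L).card ≤ (P.filter (fun p => L (φ p))).card := by
    intro L _
    have : (P.image φ).filter L = (P.filter (fun p => L (φ p))).image φ := by
      ext x
      simp only [mem_filter, mem_image]
      constructor
      · rintro ⟨⟨a, ha, rfl⟩, hL⟩
        exact ⟨a, ⟨ha, hL⟩, rfl⟩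
      · rintro ⟨a, ⟨ha, hL⟩, rfl⟩
        exact ⟨⟨a, ha, rfl⟩, hL⟩
    rw [this]
    exact card_image_le
  refine ⟨P.image φ, ?_, ?_, ?_, ?_, ?_, ?_⟩
  · intro x hx
    obtain ⟨p, hp, rfl⟩ := mem_image.1 hx
    exact ⟨(hP p hp).1, (col_spec (hP p hp).1 (hP p hp).2).1⟩
  · rw [card_image_of_injOn hinj, hcard]
  · exact fun a => (hf _).trans (hrow a)
  · exact fun b => (hf _).trans (hcol b)
  · exact fun k => (hf _).trans (hanti k)
  · exact fun d => (hf _).trans (hdiag d)

/-! ### sets of classes -/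

/-- a set of `x` numbers, not containing `e` -/
def av (e x : ℕ) : Finset ℕ := if x ≤ e then range x else (range (x + 1)).erase e

theorem card_av (e x : ℕ) : (av e x).card = x := by
  unfold av
  split_ifs with h
  · exact card_range x
  · rw [card_erase_of_mem (by rw [mem_range]; omega), card_range]; omega

theorem notMem_av (e x : ℕ) : e ∉ av e x := by
  unfold av
  split_ifs with h
  · rw [mem_range]; omega
  · exact notMem_erase _ _

theorem av_subset {e x u : ℕ} (h : x < u) : av e x ⊆ range u := by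
  unfold av
  split_ifs with h1
  · intro y hy; rw [mem_range] at hy ⊢; omega
  · intro y hy
    have := mem_of_mem_erase hy
    rw [mem_range] at this ⊢; omega

theorem range_subset' {x u : ℕ} (h : x ≤ u) : range x ⊆ range u := by
  intro y hy; rw [mem_range] at hy ⊢; omega

/-- the classes `κ < n` with `κ / M` in the set attached to `κ % M` -/
def mk (M n : ℕ) (D : ℕ → Finset ℕ) : Finset ℕ := (range n).filter (fun κ => κ / M ∈ D (κ % M))

theorem mem_mk {M n κ : ℕ} {D : ℕ → Finset ℕ} : κ ∈ mk M n D ↔ κ < n ∧ κ / M ∈ D (κ % M) := by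
  simp [mk]

theorem card_mk_mod {M u : ℕ} (D : ℕ → Finset ℕ) (ρ : ℕ) (hρ : ρ < M) (hD : D ρ ⊆ range u) :
    ((mk M (M * u) D).filter (fun κ => κ % M = ρ)).card = (D ρ).card := by
  have : (mk M (M * u) D).filter (fun κ => κ % M = ρ) = (D ρ).image (fun q => M * q + ρ) := by
    ext κ
    simp only [mem_filter, mem_mk, mem_image]
    constructor
    · rintro ⟨⟨h1, h2⟩, h3⟩
      refine ⟨κ / M, by rw [h3] at h2; exact h2, ?_⟩
      rw [← h3]; exact Nat.div_add_mod κ M
    · rintro ⟨q, hq, rfl⟩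
      have h1 : (M * q + ρ) / M = q := by
        rw [Nat.mul_add_div (by omega), Nat.div_eq_of_lt hρ, add_zero]
      have h2 : (M * q + ρ) % M = ρ := by
        rw [Nat.mul_add_mod, Nat.mod_eq_of_lt hρ]
      have h3 : q < u := mem_range.1 (hD hq)
      refine ⟨⟨?_, by rw [h1, h2]; exact hq⟩, h2⟩
      calc M * q + ρ < M * q + M := by omega
        _ = M * (q + 1) := by ring
        _ ≤ M * u := Nat.mul_le_mul_left M h3
  rw [this]
  refine card_image_of_injOn ?_
  intro a _ b _ h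
  simp only [add_left_inj] at h
  exact Nat.eq_of_mul_eq_mul_left (by omega) h

theorem card_mk {M u : ℕ} (hM : 0 < M) (D : ℕ → Finset ℕ) (hD : ∀ ρ < M, D ρ ⊆ range u) :
    (mk M (M * u) D).card = ∑ ρ ∈ range M, (D ρ).card := by
  rw [card_eq_sum_card_fiberwise (f := fun κ => κ % M) (t := range M)
    (fun κ _ => by simp only [coe_range, Set.mem_Iio]; exact Nat.mod_lt _ hM)]
  refine sum_congr rfl fun ρ hρ => ?_
  exact card_mk_mod D ρ (mem_range.1 hρ) (hD ρ (mem_range.1 hρ))

theorem card_filter_le_sum {M : ℕ} (C : Finset ℕ) (L : ℕ → Prop) [DecidablePred L]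
    (T : Finset ℕ) (h : ∀ κ ∈ C, L κ → κ % M ∈ T) :
    (C.filter L).card ≤ ∑ ρ ∈ T, (C.filter (fun κ => κ % M = ρ)).card := by
  refine (card_le_card ?_).trans card_biUnion_le
  intro κ hκ
  obtain ⟨h1, h2⟩ := mem_filter.1 hκ
  exact mem_biUnion.2 ⟨κ % M, h κ h1 h2, mem_filter.2 ⟨h1, rfl⟩⟩

/-! ### full classes -/

section Full

variable {n : ℕ} {C : Finset ℕ}

theorem rowC (a : ℕ) : ((range n ×ˢ C).filter (fun p => p.1 = a)).card ≤ C.card := by
  refine card_le_card_of_injOn Prod.snd ?_ ?_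
  · intro p hp
    have := (mem_filter.1 (mem_coe.1 hp)).1
    exact mem_coe.2 (mem_product.1 this).2
  · intro p hp q hq h
    have h1 := (mem_filter.1 (mem_coe.1 hp)).2
    have h2 := (mem_filter.1 (mem_coe.1 hq)).2
    exact Prod.ext (h1.trans h2.symm) h

theorem diagC (hC : C ⊆ range n) (d : ℤ) :
    ((range n ×ˢ C).filter (fun p => (p.1 : ℤ) - (col n p : ℤ) = d)).card ≤ C.card := by
  refine card_le_card_of_injOn Prod.snd ?_ ?_
  · intro p hp
    have := (mem_filter.1 (mem_coe.1 hp)).1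
    exact mem_coe.2 (mem_product.1 this).2
  · intro p hp q hq h
    obtain ⟨p1, p2⟩ := mem_filter.1 (mem_coe.1 hp)
    obtain ⟨q1, q2⟩ := mem_filter.1 (mem_coe.1 hq)
    obtain ⟨p3, p4⟩ := mem_product.1 p1
    obtain ⟨q3, q4⟩ := mem_product.1 q1
    have p5 := mem_range.1 p3
    have q5 := mem_range.1 q3
    have p6 := mem_range.1 (hC p4)
    have q6 := mem_range.1 (hC q4)
    have p7 := col_spec p5 p6
    have q7 := col_spec q5 q6
    refine Prod.ext ?_ h
    omega

theorem colC_odd (hn : n % 2 = 1) (hC : C ⊆ range n) (b : ℕ) :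
    ((range n ×ˢ C).filter (fun p => col n p = b)).card ≤ C.card := by
  refine card_le_card_of_injOn Prod.snd ?_ ?_
  · intro p hp
    have := (mem_filter.1 (mem_coe.1 hp)).1
    exact mem_coe.2 (mem_product.1 this).2
  · intro p hp q hq h
    obtain ⟨p1, p2⟩ := mem_filter.1 (mem_coe.1 hp)
    obtain ⟨q1, q2⟩ := mem_filter.1 (mem_coe.1 hq)
    obtain ⟨p3, p4⟩ := mem_product.1 p1
    obtain ⟨q3, q4⟩ := mem_product.1 q1
    have p5 := mem_range.1 p3
    have q5 := mem_range.1 q3
    have p6 := mem_range.1 (hC p4)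
    have q6 := mem_range.1 (hC q4)
    have p7 := col_spec p5 p6
    have q7 := col_spec q5 q6
    refine Prod.ext ?_ h
    omega

theorem antiC_ndvd (hn : n % 3 ≠ 0) (hC : C ⊆ range n) (k : ℕ) :
    ((range n ×ˢ C).filter (fun p => p.1 + col n p = k)).card ≤ C.card := by
  refine card_le_card_of_injOn Prod.snd ?_ ?_
  · intro p hp
    have := (mem_filter.1 (mem_coe.1 hp)).1
    exact mem_coe.2 (mem_product.1 this).2
  · intro p hp q hq h
    obtain ⟨p1, p2⟩ := mem_filter.1 (mem_coe.1 hp)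
    obtain ⟨q1, q2⟩ := mem_filter.1 (mem_coe.1 hq)
    obtain ⟨p3, p4⟩ := mem_product.1 p1
    obtain ⟨q3, q4⟩ := mem_product.1 q1
    have p5 := mem_range.1 p3
    have q5 := mem_range.1 q3
    have p6 := mem_range.1 (hC p4)
    have q6 := mem_range.1 (hC q4)
    have p7 := col_spec p5 p6
    have q7 := col_spec q5 q6
    refine Prod.ext ?_ h
    omega

theorem colC_even {h : ℕ} (hn : n = 2 * h) (hC : C ⊆ range n) (b : ℕ) :
    ((range n ×ˢ C).filter (fun p => col n p = b)).card ≤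
      2 * (C.filter (fun κ => κ % 2 = b % 2)).card := by
  have hcard : 2 * (C.filter (fun κ => κ % 2 = b % 2)).card =
      ((C.filter (fun κ => κ % 2 = b % 2)) ×ˢ range 2).card := by
    rw [card_product, card_range, mul_comm]
  rw [hcard]
  refine card_le_card_of_injOn (fun p => (p.2, if p.1 < h then 0 else 1)) ?_ ?_
  · intro p hp
    obtain ⟨p1, p2⟩ := mem_filter.1 (mem_coe.1 hp)
    obtain ⟨p3, p4⟩ := mem_product.1 p1
    have p5 := mem_range.1 p3
    have p6 := mem_range.1 (hC p4)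
    have p7 := col_spec p5 p6
    refine mem_coe.2 (mem_product.2 ⟨mem_filter.2 ⟨p4, ?_⟩, ?_⟩)
    · change p.2 % 2 = b % 2
      omega
    · simp only [mem_range]; split_ifs <;> omega
  · intro p hp q hq hpq
    obtain ⟨p1, p2⟩ := mem_filter.1 (mem_coe.1 hp)
    obtain ⟨q1, q2⟩ := mem_filter.1 (mem_coe.1 hq)
    obtain ⟨p3, p4⟩ := mem_product.1 p1
    obtain ⟨q3, q4⟩ := mem_product.1 q1
    have p5 := mem_range.1 p3
    have q5 := mem_range.1 q3
    have p6 := mem_range.1 (hC p4)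
    have q6 := mem_range.1 (hC q4)
    have p7 := col_spec p5 p6
    have q7 := col_spec q5 q6
    simp only [Prod.mk.injEq] at hpq
    obtain ⟨e1, e2⟩ := hpq
    refine Prod.ext ?_ e1
    split_ifs at e2 <;> omega

/-- the third of the board containing a row -/
def blk (m i : ℕ) : ℕ := if i < m then 0 else if i < 2 * m then 1 else 2

theorem blk_lt (m i : ℕ) : blk m i < 3 := by unfold blk; split_ifs <;> omega

theorem antiC_aux {m : ℕ} (hn : n = 3 * m) (hC : C ⊆ range n) (k : ℕ) :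
    (∀ p ∈ (range n ×ˢ C).filter (fun p => p.1 + col n p = k),
      (p.2, blk m p.1) ∈ (C.filter (fun κ => κ % 3 = k % 3)) ×ˢ range 3) ∧
    Set.InjOn (fun p : ℕ × ℕ => (p.2, blk m p.1))
      ((range n ×ˢ C).filter (fun p => p.1 + col n p = k) : Set (ℕ × ℕ)) := by
  constructor
  · intro p hp
    obtain ⟨p1, p2⟩ := mem_filter.1 hp
    obtain ⟨p3, p4⟩ := mem_product.1 p1
    have p5 := mem_range.1 p3
    have p6 := mem_range.1 (hC p4)
    have p7 := col_spec p5 p6
    refine mem_product.2 ⟨mem_filter.2 ⟨p4, ?_⟩, mem_range.2 (blk_lt _ _)⟩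
    omega
  · intro p hp q hq hpq
    obtain ⟨p1, p2⟩ := mem_filter.1 (mem_coe.1 hp)
    obtain ⟨q1, q2⟩ := mem_filter.1 (mem_coe.1 hq)
    obtain ⟨p3, p4⟩ := mem_product.1 p1
    obtain ⟨q3, q4⟩ := mem_product.1 q1
    have p5 := mem_range.1 p3
    have q5 := mem_range.1 q3
    have p6 := mem_range.1 (hC p4)
    have q6 := mem_range.1 (hC q4)
    have p7 := col_spec p5 p6
    have q7 := col_spec q5 q6
    simp only [Prod.mk.injEq] at hpq
    obtain ⟨e1, e2⟩ := hpq
    refine Prod.ext ?_ e1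
    unfold blk at e2
    split_ifs at e2 <;> omega

theorem antiC {m : ℕ} (hn : n = 3 * m) (hC : C ⊆ range n) (k : ℕ) :
    ((range n ×ˢ C).filter (fun p => p.1 + col n p = k)).card ≤
      3 * (C.filter (fun κ => κ % 3 = k % 3)).card := by
  have hcard : 3 * (C.filter (fun κ => κ % 3 = k % 3)).card =
      ((C.filter (fun κ => κ % 3 = k % 3)) ×ˢ range 3).card := by
    rw [card_product, card_range, mul_comm]
  rw [hcard]
  obtain ⟨h1, h2⟩ := antiC_aux hn hC k
  exact card_le_card_of_injOn _ (fun p hp => mem_coe.2 (h1 p (mem_coe.1 hp))) h2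

/-- one pair class–third is missing -/
theorem antiC_erase {m : ℕ} (hn : n = 3 * m) (hC : C ⊆ range n) (k : ℕ) (κ b : ℕ) (hκ : κ ∈ C)
    (hk : κ % 3 = k % 3) (hb : b < 3)
    (hno : ∀ p : ℕ × ℕ, p.1 < n → p.2 = κ → p.1 + col n p = k → blk m p.1 ≠ b) :
    ((range n ×ˢ C).filter (fun p => p.1 + col n p = k)).card + 1 ≤
      3 * (C.filter (fun κ => κ % 3 = k % 3)).card := by
  obtain ⟨h1, h2⟩ := antiC_aux hn hC k
  have hmem : (κ, b) ∈ (C.filter (fun κ => κ % 3 = k % 3)) ×ˢ range 3 :=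
    mem_product.2 ⟨mem_filter.2 ⟨hκ, hk⟩, mem_range.2 hb⟩
  have h3 : ((range n ×ˢ C).filter (fun p => p.1 + col n p = k)).card ≤
      (((C.filter (fun κ => κ % 3 = k % 3)) ×ˢ range 3).erase (κ, b)).card := by
    refine card_le_card_of_injOn _ (fun p hp => mem_coe.2 (mem_erase.2 ⟨?_, h1 p (mem_coe.1 hp)⟩))
      h2
    intro he
    simp only [Prod.mk.injEq] at he
    obtain ⟨p1, p2⟩ := mem_filter.1 (mem_coe.1 hp)
    exact hno p (mem_range.1 (mem_product.1 p1).1) he.1 p2 he.2
  rw [card_erase_of_mem hmem, card_product, card_range] at h3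
  have h4 : 0 < (C.filter (fun κ => κ % 3 = k % 3)).card * 3 := by
    have := card_pos.2 ⟨_, hmem⟩
    rwa [card_product, card_range] at this
  omega

theorem antiC_zero {m : ℕ} (hn : n = 3 * m) (hC : C ⊆ range n) (k : ℕ) (h0 : 0 ∈ C)
    (hk : k % 3 = 0) :
    ((range n ×ˢ C).filter (fun p => p.1 + col n p = k)).card + 1 ≤
      3 * (C.filter (fun κ => κ % 3 = k % 3)).card := by
  refine antiC_erase hn hC k 0 (if n ≤ k then 0 else 2) h0 (by omega) (by split_ifs <;> omega) ?_
  intro p p1 p2 p3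
  have p4 : p.2 < n := by have := mem_range.1 (hC h0); omega
  have p5 := col_spec p1 p4
  unfold blk
  split_ifs <;> omega

theorem antiC_one {m : ℕ} (hn : n = 3 * m) (hC : C ⊆ range n) (k : ℕ) (h0 : 1 ∈ C)
    (hk : k % 3 = 1) :
    ((range n ×ˢ C).filter (fun p => p.1 + col n p = k)).card + 1 ≤
      3 * (C.filter (fun κ => κ % 3 = k % 3)).card := by
  refine antiC_erase hn hC k 1 (if n ≤ k then 0 else 2) h0 (by omega) (by split_ifs <;> omega) ?_
  intro p p1 p2 p3
  have p4 : p.2 < n := by have := mem_range.1 (hC h0); omega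
  have p5 := col_spec p1 p4
  unfold blk
  split_ifs <;> omega

end Full

end Pool.Agent.R164.Coins
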