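import Pool.Agent.KS6_19.CP.R164.Coins

/-! Coin placements: classes used on one half of the rows only, and the assembly lemmas. -/

set_option autoImplicit false

open Finset

namespace Pool.Agent.R164.Coins

/-- classes `A` on the rows `< h` and classes `B` on the rows `≥ h` -/
def half (n h : ℕ) (A B : Finset ℕ) : Finset (ℕ × ℕ) := range h ×ˢ A ∪ Ico h n ×ˢ B

theorem mem_half {n h : ℕ} {A B : Finset ℕ} {p : ℕ × ℕ} : p ∈ half n h A B ↔
    (p.1 < h ∧ p.2 ∈ A) ∨ ((h ≤ p.1 ∧ p.1 < n) ∧ p.2 ∈ B) := by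
  unfold half
  rw [mem_union, mem_product, mem_product, mem_range, mem_Ico]

theorem card_half {n h : ℕ} {A B : Finset ℕ} :
    (half n h A B).card = h * A.card + (n - h) * B.card := by
  unfold half
  rw [card_union_of_disjoint, card_product, card_product, card_range, Nat.card_Ico]
  rw [disjoint_left]
  intro p hp hq
  have h1 := mem_range.1 (mem_product.1 hp).1
  have h2 := (mem_Ico.1 (mem_product.1 hq).1).1
  omega

theorem colHalf {n h : ℕ} {A B : Finset ℕ} (hn : n = 2 * h) (hA : A ⊆ range n)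
    (hB : B ⊆ range n) (b : ℕ) : ((half n h A B).filter (fun p => col n p = b)).card ≤
      (A.filter (fun κ => κ % 2 = b % 2)).card + (B.filter (fun κ => κ % 2 = b % 2)).card := by
  unfold half
  rw [filter_union]
  refine (card_union_le _ _).trans (Nat.add_le_add ?_ ?_)
  · refine card_le_card_of_injOn Prod.snd ?_ ?_
    · intro p hp
      obtain ⟨p1, p2⟩ := mem_filter.1 (mem_coe.1 hp)
      obtain ⟨p3, p4⟩ := mem_product.1 p1
      have p5 := mem_range.1 p3
      have p6 := mem_range.1 (hA p4)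
      have p7 := col_spec (n := n) (p := p) (by omega) p6
      exact mem_coe.2 (mem_filter.2 ⟨p4, by omega⟩)
    · intro p hp q hq hpq
      obtain ⟨p1, p2⟩ := mem_filter.1 (mem_coe.1 hp)
      obtain ⟨q1, q2⟩ := mem_filter.1 (mem_coe.1 hq)
      obtain ⟨p3, p4⟩ := mem_product.1 p1
      obtain ⟨q3, q4⟩ := mem_product.1 q1
      have p5 := mem_range.1 p3
      have q5 := mem_range.1 q3
      have p6 := mem_range.1 (hA p4)
      have q6 := mem_range.1 (hA q4)
      have p7 := col_spec (n := n) (p := p) (by omega) p6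
      have q7 := col_spec (n := n) (p := q) (by omega) q6
      refine Prod.ext ?_ hpq
      omega
  · refine card_le_card_of_injOn Prod.snd ?_ ?_
    · intro p hp
      obtain ⟨p1, p2⟩ := mem_filter.1 (mem_coe.1 hp)
      obtain ⟨p3, p4⟩ := mem_product.1 p1
      have p5 := mem_Ico.1 p3
      have p6 := mem_range.1 (hB p4)
      have p7 := col_spec (n := n) (p := p) (by omega) p6
      exact mem_coe.2 (mem_filter.2 ⟨p4, by omega⟩)
    · intro p hp q hq hpq
      obtain ⟨p1, p2⟩ := mem_filter.1 (mem_coe.1 hp)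
      obtain ⟨q1, q2⟩ := mem_filter.1 (mem_coe.1 hq)
      obtain ⟨p3, p4⟩ := mem_product.1 p1
      obtain ⟨q3, q4⟩ := mem_product.1 q1
      have p5 := mem_Ico.1 p3
      have q5 := mem_Ico.1 q3
      have p6 := mem_range.1 (hB p4)
      have q6 := mem_range.1 (hB q4)
      have p7 := col_spec (n := n) (p := p) (by omega) p6
      have q7 := col_spec (n := n) (p := q) (by omega) q6
      refine Prod.ext ?_ hpq
      omega

theorem rowHalf {n h e : ℕ} {A B : Finset ℕ} (hA : A.card = e) (hB : B.card = e) (a : ℕ) :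
    ((half n h A B).filter (fun p => p.1 = a)).card ≤ e := by
  by_cases ha : a < h
  · rw [← hA]
    refine card_le_card_of_injOn Prod.snd ?_ ?_
    · intro p hp
      obtain ⟨p1, p2⟩ := mem_filter.1 (mem_coe.1 hp)
      rcases mem_half.1 p1 with p3 | p3
      · exact p3.2
      · omega
    · intro p hp q hq hpq
      obtain ⟨p1, p2⟩ := mem_filter.1 (mem_coe.1 hp)
      obtain ⟨q1, q2⟩ := mem_filter.1 (mem_coe.1 hq)
      exact Prod.ext (p2.trans q2.symm) hpq
  · rw [← hB]
    refine card_le_card_of_injOn Prod.snd ?_ ?_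
    · intro p hp
      obtain ⟨p1, p2⟩ := mem_filter.1 (mem_coe.1 hp)
      rcases mem_half.1 p1 with p3 | p3
      · omega
      · exact p3.2
    · intro p hp q hq hpq
      obtain ⟨p1, p2⟩ := mem_filter.1 (mem_coe.1 hp)
      obtain ⟨q1, q2⟩ := mem_filter.1 (mem_coe.1 hq)
      exact Prod.ext (p2.trans q2.symm) hpq

/-- assembly, without half classes -/
theorem exists_full {n c : ℕ} {C : Finset ℕ} (hC : C ⊆ range n) (hc : C.card = c)
    (hcol : ∀ b : ℕ, ((range n ×ˢ C).filter (fun p => col n p = b)).card ≤ c)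
    (hanti : ∀ k : ℕ, ((range n ×ˢ C).filter (fun p => p.1 + col n p = k)).card ≤ c) :
    ∃ S : Finset (ℕ × ℕ), IsPlacement n c S := by
  refine exists_of (range n ×ˢ C) ?_ ?_ (fun a => (rowC a).trans hc.le) hcol hanti
    (fun d => (diagC hC d).trans hc.le)
  · intro p hp
    exact ⟨mem_range.1 (mem_product.1 hp).1, mem_range.1 (hC (mem_product.1 hp).2)⟩
  · rw [card_product, card_range, hc]

/-- assembly, with half classes -/
theorem exists_half {n h c e : ℕ} {C A B : Finset ℕ} (hn : n = 2 * h) (hC : C ⊆ range n)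
    (hA : A ⊆ range n) (hB : B ⊆ range n) (dA : ∀ x ∈ A, x ∉ C) (dB : ∀ x ∈ B, x ∉ C)
    (hAe : A.card = e) (hBe : B.card = e) (hc : C.card + e = c)
    (hcol : ∀ b : ℕ, 2 * (C.filter (fun κ => κ % 2 = b % 2)).card +
      ((A.filter (fun κ => κ % 2 = b % 2)).card + (B.filter (fun κ => κ % 2 = b % 2)).card) ≤ c)
    (hanti : ∀ k : ℕ, ((range n ×ˢ C).filter (fun p => p.1 + col n p = k)).card +
      ((half n h A B).filter (fun p => p.1 + col n p = k)).card ≤ c)
    (hdiag : ∀ d : ℤ,
      ((half n h A B).filter (fun p => (p.1 : ℤ) - (col n p : ℤ) = d)).card ≤ e) :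
    ∃ S : Finset (ℕ × ℕ), IsPlacement n c S := by
  have hle : ∀ (L : ℕ × ℕ → Prop) [DecidablePred L],
      ((range n ×ˢ C ∪ half n h A B).filter L).card ≤ ((range n ×ˢ C).filter L).card +
        ((half n h A B).filter L).card := by
    intro L _
    rw [filter_union]
    exact card_union_le _ _
  refine exists_of (range n ×ˢ C ∪ half n h A B) ?_ ?_ ?_ ?_ ?_ ?_
  · intro p hp
    rcases mem_union.1 hp with hp | hp
    · exact ⟨mem_range.1 (mem_product.1 hp).1, mem_range.1 (hC (mem_product.1 hp).2)⟩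
    · rcases mem_half.1 hp with hp | hp
      · exact ⟨by omega, mem_range.1 (hA hp.2)⟩
      · exact ⟨by omega, mem_range.1 (hB hp.2)⟩
  · rw [card_union_of_disjoint, card_product, card_range, card_half, hAe, hBe, ← hc]
    · have : n - h = h := by omega
      rw [this, hn]; ring
    · rw [disjoint_left]
      intro p hp hq
      have h1 := (mem_product.1 hp).2
      rcases mem_half.1 hq with hq | hq
      · exact dA _ hq.2 h1
      · exact dB _ hq.2 h1
  · intro a
    refine (hle _).trans ?_
    rw [← hc]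
    exact Nat.add_le_add (rowC a) (rowHalf hAe hBe a)
  · intro b
    exact (hle _).trans ((Nat.add_le_add (colC_even hn hC b) (colHalf hn hA hB b)).trans (hcol b))
  · intro k
    exact (hle _).trans (hanti k)
  · intro d
    refine (hle _).trans ?_
    rw [← hc]
    exact Nat.add_le_add (diagC hC d) (hdiag d)

/-! ### counting classes -/

theorem six_par {u : ℕ} {D : ℕ → Finset ℕ} (hD : ∀ ρ < 6, D ρ ⊆ range u) (b : ℕ) :
    ((mk 6 (6 * u) D).filter (fun κ => κ % 2 = b % 2)).card ≤
      if b % 2 = 0 then (D 0).card + (D 2).card + (D 4).card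
      else (D 1).card + (D 3).card + (D 5).card := by
  split_ifs with hb
  · refine (card_filter_le_sum (M := 6) _ _ {0, 2, 4} ?_).trans ?_
    · intro κ _ hκ
      simp only [mem_insert, mem_singleton]
      omega
    · rw [sum_insert (by decide), sum_insert (by decide), sum_singleton,
        card_mk_mod D 0 (by norm_num) (hD 0 (by norm_num)),
        card_mk_mod D 2 (by norm_num) (hD 2 (by norm_num)),
        card_mk_mod D 4 (by norm_num) (hD 4 (by norm_num))]
      omega
  · refine (card_filter_le_sum (M := 6) _ _ {1, 3, 5} ?_).trans ?_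
    · intro κ _ hκ
      simp only [mem_insert, mem_singleton]
      omega
    · rw [sum_insert (by decide), sum_insert (by decide), sum_singleton,
        card_mk_mod D 1 (by norm_num) (hD 1 (by norm_num)),
        card_mk_mod D 3 (by norm_num) (hD 3 (by norm_num)),
        card_mk_mod D 5 (by norm_num) (hD 5 (by norm_num))]
      omega

theorem six_thd {u : ℕ} {D : ℕ → Finset ℕ} (hD : ∀ ρ < 6, D ρ ⊆ range u) (k : ℕ) :
    ((mk 6 (6 * u) D).filter (fun κ => κ % 3 = k % 3)).card ≤
      if k % 3 = 0 then (D 0).card + (D 3).card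
      else if k % 3 = 1 then (D 1).card + (D 4).card else (D 2).card + (D 5).card := by
  split_ifs with hb hb'
  · refine (card_filter_le_sum (M := 6) _ _ {0, 3} ?_).trans ?_
    · intro κ _ hκ
      simp only [mem_insert, mem_singleton]
      omega
    · rw [sum_insert (by decide), sum_singleton,
        card_mk_mod D 0 (by norm_num) (hD 0 (by norm_num)),
        card_mk_mod D 3 (by norm_num) (hD 3 (by norm_num))]
  · refine (card_filter_le_sum (M := 6) _ _ {1, 4} ?_).trans ?_
    · intro κ _ hκ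
      simp only [mem_insert, mem_singleton]
      omega
    · rw [sum_insert (by decide), sum_singleton,
        card_mk_mod D 1 (by norm_num) (hD 1 (by norm_num)),
        card_mk_mod D 4 (by norm_num) (hD 4 (by norm_num))]
  · refine (card_filter_le_sum (M := 6) _ _ {2, 5} ?_).trans ?_
    · intro κ _ hκ
      simp only [mem_insert, mem_singleton]
      omega
    · rw [sum_insert (by decide), sum_singleton,
        card_mk_mod D 2 (by norm_num) (hD 2 (by norm_num)),
        card_mk_mod D 5 (by norm_num) (hD 5 (by norm_num))]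

theorem mk_subset {M n : ℕ} {D : ℕ → Finset ℕ} : mk M n D ⊆ range n := filter_subset _ _

theorem card_six {u : ℕ} {D : ℕ → Finset ℕ} (hD : ∀ ρ < 6, D ρ ⊆ range u) :
    (mk 6 (6 * u) D).card = (D 0).card + (D 1).card + (D 2).card + (D 3).card + (D 4).card +
      (D 5).card := by
  rw [card_mk (by norm_num) D hD]
  simp [sum_range_succ]

/-! ### half classes on the diagonals -/

theorem half_facts {n h a b : ℕ} {p : ℕ × ℕ} (hn : n = 2 * h) (ha : a < n) (hb : b < n)
    (hp : p ∈ half n h {a} {b}) : p.1 < n ∧ ((p.1 < h ∧ p.2 = a) ∨ (h ≤ p.1 ∧ p.2 = b)) ∧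
      col n p < n ∧ (2 * p.1 + p.2 = col n p ∨ 2 * p.1 + p.2 = col n p + n ∨
      2 * p.1 + p.2 = col n p + 2 * n) := by
  rcases mem_half.1 hp with hp | hp
  · have h1 := mem_singleton.1 hp.2
    exact ⟨by omega, Or.inl ⟨hp.1, h1⟩, col_spec (by omega) (by omega)⟩
  · have h1 := mem_singleton.1 hp.2
    exact ⟨by omega, Or.inr ⟨hp.1.1, h1⟩, col_spec (by omega) (by omega)⟩

theorem anti10 {n h : ℕ} (hn : n = 2 * h) (h3 : n % 3 ≠ 2) (hh : 0 < h) (k : ℕ) :
    ((half n h {1} {0}).filter (fun p => p.1 + col n p = k)).card ≤ 1 := by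
  rw [card_le_one]
  intro p hp q hq
  obtain ⟨p1, p2⟩ := mem_filter.1 hp
  obtain ⟨q1, q2⟩ := mem_filter.1 hq
  have p3 := half_facts hn (by omega) (by omega) p1
  have q3 := half_facts hn (by omega) (by omega) q1
  refine Prod.ext ?_ ?_ <;> omega

theorem diag10 {n h : ℕ} (hn : n = 2 * h) (hh : 0 < h) (d : ℤ) :
    ((half n h {1} {0}).filter (fun p => (p.1 : ℤ) - (col n p : ℤ) = d)).card ≤ 1 := by
  rw [card_le_one]
  intro p hp q hq
  obtain ⟨p1, p2⟩ := mem_filter.1 hp
  obtain ⟨q1, q2⟩ := mem_filter.1 hq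
  have p3 := half_facts hn (by omega) (by omega) p1
  have q3 := half_facts hn (by omega) (by omega) q1
  refine Prod.ext ?_ ?_ <;> omega

theorem anti_mid {n h : ℕ} (hn : n = 2 * h) (h3 : h % 3 = 1) (hh : 4 ≤ h) (k : ℕ) :
    ((half n h {h - 1} {h + 2}).filter (fun p => p.1 + col n p = k)).card ≤ 1 := by
  rw [card_le_one]
  intro p hp q hq
  obtain ⟨p1, p2⟩ := mem_filter.1 hp
  obtain ⟨q1, q2⟩ := mem_filter.1 hq
  have p3 := half_facts hn (by omega) (by omega) p1
  have q3 := half_facts hn (by omega) (by omega) q1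
  refine Prod.ext ?_ ?_ <;> omega

theorem diag_mid {n h : ℕ} (hn : n = 2 * h) (h3 : h % 3 = 1) (hh : 4 ≤ h) (d : ℤ) :
    ((half n h {h - 1} {h + 2}).filter (fun p => (p.1 : ℤ) - (col n p : ℤ) = d)).card ≤ 1 := by
  rw [card_le_one]
  intro p hp q hq
  obtain ⟨p1, p2⟩ := mem_filter.1 hp
  obtain ⟨q1, q2⟩ := mem_filter.1 hq
  have p3 := half_facts hn (by omega) (by omega) p1
  have q3 := half_facts hn (by omega) (by omega) q1
  refine Prod.ext ?_ ?_ <;> omega

end Pool.Agent.R164.Coins
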