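import Pool.Agent.KS6_19.CP.R164.Coins2

/-! Coin placements: the cases by the residue of `n` modulo `6`. -/

set_option autoImplicit false

open Finset

namespace Pool.Agent.R164.Coins

/-! ### `3 ∤ n` -/

theorem case_odd {n c : ℕ} (h2 : n % 2 = 1) (h3 : n % 3 ≠ 0) (hc : c ≤ n) :
    ∃ S : Finset (ℕ × ℕ), IsPlacement n c S := by
  have hC : range c ⊆ range n := range_subset' hc
  refine exists_full hC (card_range c) (fun b => ?_) (fun k => ?_)
  · exact (colC_odd h2 hC b).trans (card_range c).le
  · exact (antiC_ndvd h3 hC k).trans (card_range c).le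

theorem two_par {h : ℕ} {D : ℕ → Finset ℕ} (hD : ∀ ρ < 2, D ρ ⊆ range h) (b : ℕ) :
    ((mk 2 (2 * h) D).filter (fun κ => κ % 2 = b % 2)).card = (D (b % 2)).card :=
  card_mk_mod D (b % 2) (Nat.mod_lt _ (by norm_num)) (hD _ (Nat.mod_lt _ (by norm_num)))

theorem card_two {h : ℕ} {D : ℕ → Finset ℕ} (hD : ∀ ρ < 2, D ρ ⊆ range h) :
    (mk 2 (2 * h) D).card = (D 0).card + (D 1).card := by
  rw [card_mk (by norm_num) D hD]
  simp [sum_range_succ]

theorem case_even_even {h x : ℕ} (h3 : (2 * h) % 3 ≠ 0) (hx : x ≤ h) :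
    ∃ S : Finset (ℕ × ℕ), IsPlacement (2 * h) (2 * x) S := by
  have hD : ∀ ρ < 2, (fun _ => range x : ℕ → Finset ℕ) ρ ⊆ range h := fun _ _ => range_subset' hx
  refine exists_full (C := mk 2 (2 * h) (fun _ => range x)) mk_subset ?_ (fun b => ?_)
    (fun k => ?_)
  · rw [card_two hD]; simp; ring
  · refine (colC_even rfl mk_subset b).trans ?_
    rw [two_par hD, card_range]
  · refine (antiC_ndvd h3 mk_subset k).trans ?_
    rw [card_two hD]; simp; omega

theorem case_even_four {h x : ℕ} (h3 : h % 3 = 2) (hx : x < h) :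
    ∃ S : Finset (ℕ × ℕ), IsPlacement (2 * h) (2 * x + 1) S := by
  have hD : ∀ ρ < 2, (fun _ => av 0 x : ℕ → Finset ℕ) ρ ⊆ range h := fun _ _ => av_subset hx
  refine exists_half (C := mk 2 (2 * h) (fun _ => av 0 x)) (A := {1}) (B := {0}) (e := 1) rfl
    mk_subset ?_ ?_ ?_ ?_ rfl rfl ?_ (fun b => ?_) (fun k => ?_) (diag10 rfl (by omega))
  · rw [singleton_subset_iff, mem_range]; omega
  · rw [singleton_subset_iff, mem_range]; omega
  · intro y hy
    rw [mem_singleton.1 hy, mem_mk]
    exact fun hh => notMem_av 0 x hh.2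
  · intro y hy
    rw [mem_singleton.1 hy, mem_mk]
    exact fun hh => notMem_av 0 x hh.2
  · rw [card_two hD, card_av]; ring
  · rw [two_par hD, card_av]
    rw [filter_singleton, filter_singleton]
    have : b % 2 = 0 ∨ b % 2 = 1 := by omega
    rcases this with h | h <;> rw [h] <;> simp
  · have h1 := antiC_ndvd (n := 2 * h) (C := mk 2 (2 * h) (fun _ => av 0 x)) (by omega)
      mk_subset k
    have h2 := anti10 (n := 2 * h) rfl (by omega) (by omega) k
    rw [card_two hD, card_av] at h1
    omega

theorem case_even_two {h x : ℕ} (h3 : h % 3 = 1) (hh : 4 ≤ h) (hx : x < h) :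
    ∃ S : Finset (ℕ × ℕ), IsPlacement (2 * h) (2 * x + 1) S := by
  set D : ℕ → Finset ℕ := fun ρ => av (if (h - 1) % 2 = ρ then (h - 1) / 2 else (h + 2) / 2) x
    with hDdef
  have hD : ∀ ρ < 2, D ρ ⊆ range h := fun _ _ => av_subset hx
  have hDc : ∀ ρ, (D ρ).card = x := fun ρ => card_av _ _
  refine exists_half (C := mk 2 (2 * h) D) (A := {h - 1}) (B := {h + 2}) (e := 1) rfl
    mk_subset ?_ ?_ ?_ ?_ rfl rfl ?_ (fun b => ?_) (fun k => ?_) (diag_mid rfl h3 hh)
  · rw [singleton_subset_iff, mem_range]; omega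
  · rw [singleton_subset_iff, mem_range]; omega
  · intro y hy
    rw [mem_singleton.1 hy, mem_mk]
    intro hh'
    have h4 := hh'.2
    rw [hDdef] at h4
    simp only [if_true] at h4
    exact notMem_av _ x h4
  · intro y hy
    rw [mem_singleton.1 hy, mem_mk]
    intro hh'
    have h4 := hh'.2
    rw [hDdef] at h4
    simp only at h4
    rw [if_neg (by omega)] at h4
    exact notMem_av _ x h4
  · rw [card_two hD, hDc, hDc]; ring
  · rw [two_par hD, hDc]
    rw [filter_singleton, filter_singleton]
    split_ifs <;> simp; all_goals omega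
  · have h1 := antiC_ndvd (n := 2 * h) (C := mk 2 (2 * h) D) (by omega)
      mk_subset k
    have h2 := anti_mid (n := 2 * h) rfl h3 hh k
    rw [card_two hD, hDc, hDc] at h1
    omega

/-! ### `n` odd, `3 ∣ n` -/

theorem three_thd {m : ℕ} {D : ℕ → Finset ℕ} (hD : ∀ ρ < 3, D ρ ⊆ range m) (k : ℕ) :
    ((mk 3 (3 * m) D).filter (fun κ => κ % 3 = k % 3)).card = (D (k % 3)).card :=
  card_mk_mod D (k % 3) (Nat.mod_lt _ (by norm_num)) (hD _ (Nat.mod_lt _ (by norm_num)))

theorem card_three {m : ℕ} {D : ℕ → Finset ℕ} (hD : ∀ ρ < 3, D ρ ⊆ range m) :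
    (mk 3 (3 * m) D).card = (D 0).card + (D 1).card + (D 2).card := by
  rw [card_mk (by norm_num) D hD]
  simp [sum_range_succ]

theorem case_three_zero {m q : ℕ} (h2 : m % 2 = 1) (hq : q ≤ m) :
    ∃ S : Finset (ℕ × ℕ), IsPlacement (3 * m) (3 * q) S := by
  have hD : ∀ ρ < 3, (fun _ => range q : ℕ → Finset ℕ) ρ ⊆ range m := fun _ _ => range_subset' hq
  refine exists_full (C := mk 3 (3 * m) (fun _ => range q)) mk_subset ?_ (fun b => ?_)
    (fun k => ?_)
  · rw [card_three hD]; simp; ring
  · refine (colC_odd (by omega) mk_subset b).trans ?_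
    rw [card_three hD]; simp; omega
  · refine (antiC rfl mk_subset k).trans ?_
    rw [three_thd hD, card_range]

theorem case_three_two {m q : ℕ} (h2 : m % 2 = 1) (hq : q < m) :
    ∃ S : Finset (ℕ × ℕ), IsPlacement (3 * m) (3 * q + 2) S := by
  set D : ℕ → Finset ℕ := fun ρ => range (if ρ = 2 then q else q + 1) with hDdef
  have hD : ∀ ρ < 3, D ρ ⊆ range m := fun _ _ => range_subset' (by split_ifs <;> omega)
  have d0 : (D 0).card = q + 1 := card_range _
  have d1 : (D 1).card = q + 1 := card_range _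
  have d2 : (D 2).card = q := card_range _
  have h0 : 0 ∈ mk 3 (3 * m) D := by
    rw [mem_mk]; exact ⟨by omega, by rw [hDdef]; simp⟩
  have h1 : 1 ∈ mk 3 (3 * m) D := by
    rw [mem_mk]; exact ⟨by omega, by rw [hDdef]; simp⟩
  refine exists_full (C := mk 3 (3 * m) D) mk_subset ?_ (fun b => ?_) (fun k => ?_)
  · rw [card_three hD, d0, d1, d2]; ring
  · refine (colC_odd (by omega) mk_subset b).trans ?_
    rw [card_three hD, d0, d1, d2]; omega
  · have hk : k % 3 = 0 ∨ k % 3 = 1 ∨ k % 3 = 2 := by omega
    rcases hk with hk | hk | hk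
    · have h3 := antiC_zero (n := 3 * m) rfl mk_subset k h0 hk
      rw [three_thd hD, hk, d0] at h3
      omega
    · have h3 := antiC_one (n := 3 * m) rfl mk_subset k h1 hk
      rw [three_thd hD, hk, d1] at h3
      omega
    · have h3 := antiC (n := 3 * m) (C := mk 3 (3 * m) D) rfl mk_subset k
      rw [three_thd hD, hk, d2] at h3
      omega


theorem case_three_one {m q : ℕ} (h2 : m % 2 = 1) (hm : 3 ≤ m) (hq1 : 1 ≤ q) (hq : q < m) :
    ∃ S : Finset (ℕ × ℕ), IsPlacement (3 * m) (3 * q + 1) S := by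
  set D : ℕ → Finset ℕ := fun ρ => if ρ = 0 then range (q + 1) else av (ρ - 1) q with hDdef
  have d0 : (D 0).card = q + 1 := card_range _
  have d1 : (D 1).card = q := card_av _ _
  have d2 : (D 2).card = q := card_av _ _
  have hD : ∀ ρ < 3, D ρ ⊆ range m := by
    intro ρ _
    rw [hDdef]
    simp only
    split_ifs
    · exact range_subset' (by omega)
    · exact av_subset hq
  set C := mk 3 (3 * m) D with hCdef
  have hCn : C ⊆ range (3 * m) := mk_subset
  have hCc : C.card = 3 * q + 1 := by rw [hCdef, card_three hD, d0, d1, d2]; ring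
  have m0 : 0 ∈ C := by
    rw [hCdef, mem_mk]
    refine ⟨by omega, ?_⟩
    change 0 ∈ range (q + 1)
    rw [mem_range]; omega
  have m3 : 3 ∈ C := by
    rw [hCdef, mem_mk]
    refine ⟨by omega, ?_⟩
    change 1 ∈ range (q + 1)
    rw [mem_range]; omega
  have m2 : 2 ∈ C := by
    rw [hCdef, mem_mk]
    refine ⟨by omega, ?_⟩
    change 0 ∈ av 1 q
    unfold av
    split_ifs
    · rw [mem_range]; omega
    · rw [mem_erase, mem_range]; omega
  have m1 : 1 ∉ C := by
    rw [hCdef, mem_mk]
    exact fun hh => notMem_av 0 q hh.2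
  have m5 : 5 ∉ C := by
    rw [hCdef, mem_mk]
    exact fun hh => notMem_av 1 q hh.2
  have hCdef' : C = mk 3 (3 * m) D := hCdef
  clear_value C
  obtain ⟨n, hn⟩ : ∃ n, n = 3 * m := ⟨_, rfl⟩
  rw [← hn] at hCn ⊢
  set T := range n ×ˢ C with hT
  set P : Finset (ℕ × ℕ) := insert (0, 1) (insert (n - 1, 5) ((T.erase (n - 1, 3)).erase (0, 3)))
    with hP
  have hmem : ∀ p ∈ P, p.1 < n ∧ p.2 < n ∧
      ((p.2 ∈ C ∧ p.2 ≠ 1 ∧ p.2 ≠ 5 ∧ ¬ (p.1 = n - 1 ∧ p.2 = 3) ∧ ¬ (p.1 = 0 ∧ p.2 = 3)) ∨
        (p.1 = 0 ∧ p.2 = 1) ∨ (p.1 = n - 1 ∧ p.2 = 5)) := by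
    intro p hp
    rcases mem_insert.1 hp with rfl | hp
    · exact ⟨by simp only; omega, by simp only; omega, Or.inr (Or.inl ⟨rfl, rfl⟩)⟩
    · rcases mem_insert.1 hp with rfl | hp
      · exact ⟨by simp only; omega, by simp only; omega, Or.inr (Or.inr ⟨rfl, rfl⟩)⟩
      · obtain ⟨e1, e2⟩ := mem_erase.1 hp
        obtain ⟨e3, e4⟩ := mem_erase.1 e2
        obtain ⟨e5, e6⟩ := mem_product.1 e4
        refine ⟨mem_range.1 e5, mem_range.1 (hCn e6), Or.inl ⟨e6, ?_, ?_, ?_, ?_⟩⟩
        · intro h; exact m1 (h ▸ e6)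
        · intro h; exact m5 (h ▸ e6)
        · rintro ⟨h, h'⟩; exact e3 (Prod.ext h h')
        · rintro ⟨h, h'⟩; exact e1 (Prod.ext h h')
  have hsub : ∀ p ∈ P, p = (0, 1) ∨ p = (n - 1, 5) ∨ p ∈ T := by
    intro p hp
    rcases mem_insert.1 hp with h | hp
    · exact Or.inl h
    · rcases mem_insert.1 hp with h | hp
      · exact Or.inr (Or.inl h)
      · exact Or.inr (Or.inr (mem_of_mem_erase (mem_of_mem_erase hp)))
  refine exists_of P (fun p hp => ⟨(hmem p hp).1, (hmem p hp).2.1⟩) ?_ ?_ ?_ ?_ ?_
  · -- number of cells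
    have e1 : (n - 1, 3) ∈ T := mem_product.2 ⟨mem_range.2 (by omega), m3⟩
    have e2 : (0, 3) ∈ T.erase (n - 1, 3) := by
      refine mem_erase.2 ⟨fun h => ?_, mem_product.2 ⟨mem_range.2 (by omega), m3⟩⟩
      simp only [Prod.mk.injEq] at h
      omega
    have e3 : (n - 1, 5) ∉ (T.erase (n - 1, 3)).erase (0, 3) := fun h =>
      m5 (mem_product.1 (mem_of_mem_erase (mem_of_mem_erase h))).2
    have e4 : (0, 1) ∉ insert (n - 1, 5) ((T.erase (n - 1, 3)).erase (0, 3)) := by
      rw [mem_insert, not_or]
      refine ⟨fun h => ?_, fun h =>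
        m1 (mem_product.1 (mem_of_mem_erase (mem_of_mem_erase h))).2⟩
      simp only [Prod.mk.injEq] at h
      omega
    rw [hP, card_insert_of_notMem e4, card_insert_of_notMem e3, card_erase_of_mem e2,
      card_erase_of_mem e1, hT, card_product, card_range, hCc]
    have h1 : 2 ≤ n * (3 * q + 1) := by nlinarith
    omega
  · -- rows
    intro a
    rw [← hCc]
    refine card_le_card_of_injOn (fun p => if p.2 = 1 ∨ p.2 = 5 then 3 else p.2) ?_ ?_
    · intro p hp
      have h1 := hmem p (mem_filter.1 (mem_coe.1 hp)).1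
      simp only
      split_ifs with h
      · exact m3
      · rcases h1.2.2 with h2 | h2 | h2
        · exact h2.1
        · omega
        · omega
    · intro p hp p' hp' hpp
      obtain ⟨h1, h2⟩ := mem_filter.1 (mem_coe.1 hp)
      obtain ⟨h1', h2'⟩ := mem_filter.1 (mem_coe.1 hp')
      have h3 := hmem p h1
      have h3' := hmem p' h1'
      simp only at hpp
      refine Prod.ext ?_ ?_ <;> split_ifs at hpp <;> omega
  · -- columns
    intro b
    rw [← hCc]
    refine card_le_card_of_injOn (fun p => if p.2 = 1 ∨ p.2 = 5 then 3 else p.2) ?_ ?_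
    · intro p hp
      have h1 := hmem p (mem_filter.1 (mem_coe.1 hp)).1
      simp only
      split_ifs with h
      · exact m3
      · rcases h1.2.2 with h2 | h2 | h2
        · exact h2.1
        · omega
        · omega
    · intro p hp p' hp' hpp
      obtain ⟨h1, h2⟩ := mem_filter.1 (mem_coe.1 hp)
      obtain ⟨h1', h2'⟩ := mem_filter.1 (mem_coe.1 hp')
      have h3 := hmem p h1
      have h3' := hmem p' h1'
      have h4 := col_spec h3.1 h3.2.1
      have h4' := col_spec h3'.1 h3'.2.1
      simp only at hpp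
      refine Prod.ext ?_ ?_ <;> split_ifs at hpp <;> omega
  · -- antidiagonals
    intro k
    by_cases hk : k % 3 = 0
    · have haux := antiC_aux (n := n) (m := m) hn hCn k
      have hPT : ∀ p ∈ P.filter (fun p => p.1 + col n p = k),
          p ∈ T.filter (fun p => p.1 + col n p = k) := by
        intro p hp
        obtain ⟨h1, h2⟩ := mem_filter.1 hp
        have h3 := hmem p h1
        have h4 := col_spec h3.1 h3.2.1
        rcases hsub p h1 with h5 | h5 | h5
        · have h6 := congrArg Prod.fst h5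
          have h7 := congrArg Prod.snd h5
          simp only at h6 h7
          omega
        · have h6 := congrArg Prod.fst h5
          have h7 := congrArg Prod.snd h5
          simp only at h6 h7
          omega
        · exact mem_filter.2 ⟨h5, h2⟩
      set b1 : ℕ := if n ≤ k then 0 else 2 with hb1
      set b2 : ℕ := if n < k then 0 else 2 with hb2
      set F := (C.filter (fun κ => κ % 3 = k % 3)) ×ˢ range 3 with hF
      have f0 : (0, b1) ∈ F := mem_product.2 ⟨mem_filter.2 ⟨m0, by simp only; omega⟩,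
        mem_range.2 (by simp only; rw [hb1]; split_ifs <;> omega)⟩
      have f3 : (3, b2) ∈ F.erase (0, b1) := by
        refine mem_erase.2 ⟨by simp, mem_product.2 ⟨mem_filter.2 ⟨m3, by simp only; omega⟩,
          mem_range.2 (by simp only; rw [hb2]; split_ifs <;> omega)⟩⟩
      have hle : (P.filter (fun p => p.1 + col n p = k)).card ≤
          ((F.erase (0, b1)).erase (3, b2)).card := by
        refine card_le_card_of_injOn (fun p => (p.2, blk m p.1)) ?_
          (haux.2.mono (fun p hp => mem_coe.2 (hPT p (mem_coe.1 hp))))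
        intro p hp
        obtain ⟨h1, h2⟩ := mem_filter.1 (mem_coe.1 hp)
        have h3 := hmem p h1
        have h4 := col_spec h3.1 h3.2.1
        refine mem_coe.2 (mem_erase.2 ⟨?_, mem_erase.2 ⟨?_, haux.1 p (hPT p (mem_coe.1 hp))⟩⟩)
        · intro he
          simp only [Prod.mk.injEq, hb2] at he
          obtain ⟨e1, e2⟩ := he
          unfold blk at e2
          split_ifs at e2 <;> omega
        · intro he
          simp only [Prod.mk.injEq, hb1] at he
          obtain ⟨e1, e2⟩ := he
          unfold blk at e2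
          split_ifs at e2 <;> omega
      have hFc : F.card = 3 * (q + 1) := by
        rw [hF, card_product, card_range, hCdef', three_thd hD, hk, d0]; ring
      rw [card_erase_of_mem f3, card_erase_of_mem f0, hFc] at hle
      omega
    · have hsub2 : P.filter (fun p => p.1 + col n p = k) ⊆
          insert (if k = 1 then (0, 1) else (n - 1, 5))
            (T.filter (fun p => p.1 + col n p = k)) := by
        intro p hp
        obtain ⟨h1, h2⟩ := mem_filter.1 hp
        have h3 := hmem p h1
        have h4 := col_spec h3.1 h3.2.1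
        rcases hsub p h1 with h5 | h5 | h5
        · have h6 := congrArg Prod.fst h5
          have h7 := congrArg Prod.snd h5
          simp only at h6 h7
          rw [mem_insert, if_pos (by omega)]
          exact Or.inl h5
        · have h6 := congrArg Prod.fst h5
          have h7 := congrArg Prod.snd h5
          simp only at h6 h7
          rw [mem_insert, if_neg (by omega)]
          exact Or.inl h5
        · exact mem_insert_of_mem (mem_filter.2 ⟨h5, h2⟩)
      have h3 := (card_le_card hsub2).trans (card_insert_le _ _)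
      have h4 : (T.filter (fun p => p.1 + col n p = k)).card ≤
          3 * (C.filter (fun κ => κ % 3 = k % 3)).card := antiC (n := n) (m := m) hn hCn k
      have h5 : (C.filter (fun κ => κ % 3 = k % 3)).card = q := by
        rw [hCdef', three_thd hD]
        have : k % 3 = 1 ∨ k % 3 = 2 := by omega
        rcases this with h | h <;> rw [h]
        · exact d1
        · exact d2
      rw [h5] at h4
      omega
  · -- diagonals
    intro d
    rw [← hCc]
    refine card_le_card_of_injOn (fun p => if p.2 = 1 then 2 else if p.2 = 5 then 3 else p.2)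
      ?_ ?_
    · intro p hp
      have h1 := hmem p (mem_filter.1 (mem_coe.1 hp)).1
      simp only
      split_ifs with h h'
      · exact m2
      · exact m3
      · rcases h1.2.2 with h2 | h2 | h2
        · exact h2.1
        · omega
        · omega
    · intro p hp p' hp' hpp
      obtain ⟨h1, h2⟩ := mem_filter.1 (mem_coe.1 hp)
      obtain ⟨h1', h2'⟩ := mem_filter.1 (mem_coe.1 hp')
      have h3 := hmem p h1
      have h3' := hmem p' h1'
      have h4 := col_spec h3.1 h3.2.1
      have h4' := col_spec h3'.1 h3'.2.1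
      simp only at hpp
      refine Prod.ext ?_ ?_ <;> split_ifs at hpp <;> omega

end Pool.Agent.R164.Coins
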