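import Pool.Agent.KS6_19.CP.R164.Coins3

/-! Coin placements: the case `6 ∣ n`, and a single queen per line for `n ≡ 3` modulo `6`. -/

set_option autoImplicit false

open Finset

namespace Pool.Agent.R164.Coins

/-! ### one coin per line, `n ≡ 3 (mod 6)` -/

/-- the column of the queen in row `i`, for `n = 6 u + 3` -/
def qf (u i : ℕ) : ℕ :=
  if i < 3 * u + 1 then (if 2 * i + 3 * u < 6 * u + 2 then 2 * i + 3 * u
    else 2 * i + 3 * u - (6 * u + 2))
  else if i < 6 * u + 2 then
    (if 2 * i + 3 * u + 3 < 2 * (6 * u + 2) then 2 * i + 3 * u + 3 - (6 * u + 2)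
    else 2 * i + 3 * u + 3 - 2 * (6 * u + 2))
  else 6 * u + 2

theorem case_queens {u : ℕ} (hu : 1 ≤ u) :
    ∃ S : Finset (ℕ × ℕ), IsPlacement (6 * u + 3) 1 S := by
  refine ⟨(range (6 * u + 3)).image (fun i => (i, qf u i)), ?_, ?_, ?_, ?_, ?_, ?_⟩
  · intro p hp
    obtain ⟨i, hi, rfl⟩ := mem_image.1 hp
    have h1 := mem_range.1 hi
    refine ⟨h1, ?_⟩
    simp only
    unfold qf
    split_ifs <;> omega
  · rw [card_image_of_injective, card_range, mul_one]
    intro a b h
    exact congrArg Prod.fst h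
  · intro a
    rw [card_le_one]
    intro p hp q hq
    obtain ⟨p1, p2⟩ := mem_filter.1 hp
    obtain ⟨q1, q2⟩ := mem_filter.1 hq
    obtain ⟨i, hi, rfl⟩ := mem_image.1 p1
    obtain ⟨j, hj, rfl⟩ := mem_image.1 q1
    simp only at p2 q2
    rw [p2, q2]
  · intro a
    rw [card_le_one]
    intro p hp q hq
    obtain ⟨p1, p2⟩ := mem_filter.1 hp
    obtain ⟨q1, q2⟩ := mem_filter.1 hq
    obtain ⟨i, hi, rfl⟩ := mem_image.1 p1
    obtain ⟨j, hj, rfl⟩ := mem_image.1 q1
    have h1 := mem_range.1 hi
    have h2 := mem_range.1 hj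
    simp only at p2 q2
    have h3 : i = j := by
      unfold qf at p2 q2
      split_ifs at p2 q2 <;> omega
    rw [h3]
  · intro a
    rw [card_le_one]
    intro p hp q hq
    obtain ⟨p1, p2⟩ := mem_filter.1 hp
    obtain ⟨q1, q2⟩ := mem_filter.1 hq
    obtain ⟨i, hi, rfl⟩ := mem_image.1 p1
    obtain ⟨j, hj, rfl⟩ := mem_image.1 q1
    have h1 := mem_range.1 hi
    have h2 := mem_range.1 hj
    simp only at p2 q2
    have h3 : i = j := by
      unfold qf at p2 q2
      split_ifs at p2 q2 <;> omega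
    rw [h3]
  · intro a
    rw [card_le_one]
    intro p hp q hq
    obtain ⟨p1, p2⟩ := mem_filter.1 hp
    obtain ⟨q1, q2⟩ := mem_filter.1 hq
    obtain ⟨i, hi, rfl⟩ := mem_image.1 p1
    obtain ⟨j, hj, rfl⟩ := mem_image.1 q1
    have h1 := mem_range.1 hi
    have h2 := mem_range.1 hj
    simp only at p2 q2
    have h3 : i = j := by
      unfold qf at p2 q2
      split_ifs at p2 q2 <;> omega
    rw [h3]

/-! ### `6 ∣ n` -/

theorem six_zero {u t : ℕ} (ht : t ≤ u) :
    ∃ S : Finset (ℕ × ℕ), IsPlacement (6 * u) (6 * t) S := by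
  have hD : ∀ ρ < 6, (fun _ => range t : ℕ → Finset ℕ) ρ ⊆ range u := fun _ _ => range_subset' ht
  refine exists_full (C := mk 6 (6 * u) (fun _ => range t)) mk_subset ?_ (fun b => ?_)
    (fun k => ?_)
  · rw [card_six hD]; simp; ring
  · refine (colC_even (h := 3 * u) (by ring) mk_subset b).trans ?_
    have h1 := six_par hD b
    simp only [card_range] at h1
    split_ifs at h1 <;> omega
  · refine (antiC (m := 2 * u) (by ring) mk_subset k).trans ?_
    have h1 := six_thd hD k
    simp only [card_range] at h1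
    split_ifs at h1 <;> omega

theorem six_two {u t : ℕ} (ht : t < u) :
    ∃ S : Finset (ℕ × ℕ), IsPlacement (6 * u) (6 * t + 2) S := by
  set D : ℕ → Finset ℕ := fun ρ => range (if ρ < 2 then t + 1 else t) with hDdef
  have hD : ∀ ρ < 6, D ρ ⊆ range u := fun _ _ => range_subset' (by split_ifs <;> omega)
  have d0 : (D 0).card = t + 1 := card_range _
  have d1 : (D 1).card = t + 1 := card_range _
  have d2 : (D 2).card = t := card_range _
  have d3 : (D 3).card = t := card_range _
  have d4 : (D 4).card = t := card_range _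
  have d5 : (D 5).card = t := card_range _
  have m0 : 0 ∈ mk 6 (6 * u) D := by
    rw [mem_mk]
    refine ⟨by omega, ?_⟩
    change 0 ∈ range (t + 1)
    rw [mem_range]; omega
  have m1 : 1 ∈ mk 6 (6 * u) D := by
    rw [mem_mk]
    refine ⟨by omega, ?_⟩
    change 0 ∈ range (t + 1)
    rw [mem_range]; omega
  refine exists_full (C := mk 6 (6 * u) D) mk_subset ?_ (fun b => ?_) (fun k => ?_)
  · rw [card_six hD, d0, d1, d2, d3, d4, d5]; ring
  · refine (colC_even (h := 3 * u) (by ring) mk_subset b).trans ?_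
    have h1 := six_par hD b
    rw [d0, d1, d2, d3, d4, d5] at h1
    split_ifs at h1 <;> omega
  · have h1 := six_thd hD k
    rw [d0, d1, d2, d3, d4, d5] at h1
    have hk : k % 3 = 0 ∨ k % 3 = 1 ∨ k % 3 = 2 := by omega
    rcases hk with hk | hk | hk
    · have h3 := antiC_zero (n := 6 * u) (m := 2 * u) (by ring) mk_subset k m0 hk
      rw [if_pos hk] at h1
      omega
    · have h3 := antiC_one (n := 6 * u) (m := 2 * u) (by ring) mk_subset k m1 hk
      rw [if_neg (by omega), if_pos hk] at h1
      omega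
    · have h3 := antiC (n := 6 * u) (m := 2 * u) (C := mk 6 (6 * u) D) (by ring) mk_subset k
      rw [if_neg (by omega), if_neg (by omega)] at h1
      omega

theorem six_one {u t : ℕ} (ht : t < u) :
    ∃ S : Finset (ℕ × ℕ), IsPlacement (6 * u) (6 * t + 1) S := by
  have hD : ∀ ρ < 6, (fun _ => av 0 t : ℕ → Finset ℕ) ρ ⊆ range u := fun _ _ => av_subset ht
  refine exists_half (C := mk 6 (6 * u) (fun _ => av 0 t)) (h := 3 * u) (A := {1}) (B := {0})
    (e := 1) (by ring) mk_subset ?_ ?_ ?_ ?_ rfl rfl ?_ (fun b => ?_) (fun k => ?_)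
    (diag10 (by ring) (by omega))
  · rw [singleton_subset_iff, mem_range]; omega
  · rw [singleton_subset_iff, mem_range]; omega
  · intro y hy
    rw [mem_singleton.1 hy, mem_mk]
    exact fun hh => notMem_av 0 t hh.2
  · intro y hy
    rw [mem_singleton.1 hy, mem_mk]
    exact fun hh => notMem_av 0 t hh.2
  · rw [card_six hD]; simp only [card_av]; ring
  · have h1 := six_par hD b
    simp only [card_av] at h1
    rw [filter_singleton, filter_singleton]
    have : b % 2 = 0 ∨ b % 2 = 1 := by omega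
    rcases this with h | h <;> rw [h] at h1 ⊢ <;> simp at h1 ⊢ <;> omega
  · have h1 := six_thd hD k
    simp only [card_av] at h1
    have h3 := antiC (n := 6 * u) (m := 2 * u) (C := mk 6 (6 * u) (fun _ => av 0 t)) (by ring)
      mk_subset k
    have h2 := anti10 (n := 6 * u) (h := 3 * u) (by ring) (by omega) (by omega) k
    split_ifs at h1 <;> omega

end Pool.Agent.R164.Coins
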