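import Pool.Agent.KS6_19.CP.R164.Coins4

/-! Coin placements: `6 ∣ n`, the residues `3`, `4`, `5` of `c` modulo `6`. -/

set_option autoImplicit false

open Finset

namespace Pool.Agent.R164.Coins

/-! ### `c ≡ 5` -/

theorem anti12 {u : ℕ} (hu : 1 ≤ u) (k : ℕ) :
    ((half (6 * u) (3 * u) {1} {2}).filter (fun p => p.1 + col (6 * u) p = k)).card ≤
      if k % 3 = 0 then 0 else 2 := by
  split_ifs with hk
  · rw [Nat.le_zero, card_eq_zero, filter_eq_empty_iff]
    intro p hp
    have p3 := half_facts (n := 6 * u) (h := 3 * u) (by ring) (by omega) (by omega) hp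
    omega
  · conv_rhs => rw [← card_range 2]
    refine card_le_card_of_injOn (fun p => if p.1 = 6 * u - 1 then 1 else 0) ?_ ?_
    · intro p _
      simp only [coe_range, Set.mem_Iio]
      split_ifs <;> omega
    · intro p hp q hq hpq
      obtain ⟨p1, p2⟩ := mem_filter.1 (mem_coe.1 hp)
      obtain ⟨q1, q2⟩ := mem_filter.1 (mem_coe.1 hq)
      have p3 := half_facts (n := 6 * u) (h := 3 * u) (by ring) (by omega) (by omega) p1
      have q3 := half_facts (n := 6 * u) (h := 3 * u) (by ring) (by omega) (by omega) q1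
      simp only at hpq
      refine Prod.ext ?_ ?_ <;> split_ifs at hpq <;> omega

theorem diag12 {u : ℕ} (hu : 1 ≤ u) (d : ℤ) :
    ((half (6 * u) (3 * u) {1} {2}).filter
      (fun p => (p.1 : ℤ) - (col (6 * u) p : ℤ) = d)).card ≤ 1 := by
  rw [card_le_one]
  intro p hp q hq
  obtain ⟨p1, p2⟩ := mem_filter.1 hp
  obtain ⟨q1, q2⟩ := mem_filter.1 hq
  have p3 := half_facts (n := 6 * u) (h := 3 * u) (by ring) (by omega) (by omega) p1
  have q3 := half_facts (n := 6 * u) (h := 3 * u) (by ring) (by omega) (by omega) q1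
  refine Prod.ext ?_ ?_ <;> omega

theorem six_five {u t : ℕ} (ht : t < u) :
    ∃ S : Finset (ℕ × ℕ), IsPlacement (6 * u) (6 * t + 5) S := by
  set D : ℕ → Finset ℕ := fun ρ => if ρ = 1 ∨ ρ = 2 then av 0 t else range (t + 1) with hDdef
  have hD : ∀ ρ < 6, D ρ ⊆ range u := by
    intro ρ _
    rw [hDdef]
    simp only
    split_ifs
    · exact av_subset ht
    · exact range_subset' (by omega)
  have d0 : (D 0).card = t + 1 := card_range _
  have d1 : (D 1).card = t := card_av _ _
  have d2 : (D 2).card = t := card_av _ _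
  have d3 : (D 3).card = t + 1 := card_range _
  have d4 : (D 4).card = t + 1 := card_range _
  have d5 : (D 5).card = t + 1 := card_range _
  have m0 : 0 ∈ mk 6 (6 * u) D := by
    rw [mem_mk]
    refine ⟨by omega, ?_⟩
    change 0 ∈ range (t + 1)
    rw [mem_range]; omega
  refine exists_half (C := mk 6 (6 * u) D) (h := 3 * u) (A := {1}) (B := {2})
    (e := 1) (by ring) mk_subset ?_ ?_ ?_ ?_ rfl rfl ?_ (fun b => ?_) (fun k => ?_)
    (diag12 (by omega))
  · rw [singleton_subset_iff, mem_range]; omega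
  · rw [singleton_subset_iff, mem_range]; omega
  · intro y hy
    rw [mem_singleton.1 hy, mem_mk]
    exact fun hh => notMem_av 0 t hh.2
  · intro y hy
    rw [mem_singleton.1 hy, mem_mk]
    exact fun hh => notMem_av 0 t hh.2
  · rw [card_six hD, d0, d1, d2, d3, d4, d5]; ring
  · have h1 := six_par hD b
    rw [d0, d1, d2, d3, d4, d5] at h1
    rw [filter_singleton, filter_singleton]
    have : b % 2 = 0 ∨ b % 2 = 1 := by omega
    rcases this with h | h <;> rw [h] at h1 ⊢ <;> simp at h1 ⊢ <;> omega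
  · have h1 := six_thd hD k
    rw [d0, d1, d2, d3, d4, d5] at h1
    have h2 := anti12 (u := u) (by omega) k
    have hk : k % 3 = 0 ∨ k % 3 = 1 ∨ k % 3 = 2 := by omega
    rcases hk with hk | hk | hk
    · have h3 := antiC_zero (n := 6 * u) (m := 2 * u) (by ring) mk_subset k m0 hk
      rw [if_pos hk] at h1 h2
      omega
    · have h3 := antiC (n := 6 * u) (m := 2 * u) (C := mk 6 (6 * u) D) (by ring) mk_subset k
      rw [if_neg (by omega), if_pos hk] at h1
      rw [if_neg (by omega)] at h2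
      omega
    · have h3 := antiC (n := 6 * u) (m := 2 * u) (C := mk 6 (6 * u) D) (by ring) mk_subset k
      rw [if_neg (by omega), if_neg (by omega)] at h1
      rw [if_neg (by omega)] at h2
      omega

/-! ### `c ≡ 3` -/

theorem anti58 {u : ℕ} (hu : 2 ≤ u) (k : ℕ) :
    ((half (6 * u) (3 * u) {5} {8}).filter (fun p => p.1 + col (6 * u) p = k)).card ≤
      if k % 3 = 2 then 3 else 0 := by
  split_ifs with hk
  · conv_rhs => rw [← card_range 3]
    refine card_le_card_of_injOn (fun p => if p.1 < 3 * u then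
      (if 2 * p.1 + 5 < 6 * u then 0 else 1) else (if 2 * p.1 + 8 < 12 * u then 1 else 2)) ?_ ?_
    · intro p _
      simp only [coe_range, Set.mem_Iio]
      split_ifs <;> omega
    · intro p hp q hq hpq
      obtain ⟨p1, p2⟩ := mem_filter.1 (mem_coe.1 hp)
      obtain ⟨q1, q2⟩ := mem_filter.1 (mem_coe.1 hq)
      have p3 := half_facts (n := 6 * u) (h := 3 * u) (by ring) (by omega) (by omega) p1
      have q3 := half_facts (n := 6 * u) (h := 3 * u) (by ring) (by omega) (by omega) q1
      simp only at hpq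
      refine Prod.ext ?_ ?_ <;> split_ifs at hpq <;> omega
  · rw [Nat.le_zero, card_eq_zero, filter_eq_empty_iff]
    intro p hp
    have p3 := half_facts (n := 6 * u) (h := 3 * u) (by ring) (by omega) (by omega) hp
    omega

theorem diag58 {u : ℕ} (hu : 2 ≤ u) (d : ℤ) :
    ((half (6 * u) (3 * u) {5} {8}).filter
      (fun p => (p.1 : ℤ) - (col (6 * u) p : ℤ) = d)).card ≤ 1 := by
  rw [card_le_one]
  intro p hp q hq
  obtain ⟨p1, p2⟩ := mem_filter.1 hp
  obtain ⟨q1, q2⟩ := mem_filter.1 hq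
  have p3 := half_facts (n := 6 * u) (h := 3 * u) (by ring) (by omega) (by omega) p1
  have q3 := half_facts (n := 6 * u) (h := 3 * u) (by ring) (by omega) (by omega) q1
  refine Prod.ext ?_ ?_ <;> omega

theorem six_three {u t : ℕ} (hu : 2 ≤ u) (ht : t < u) :
    ∃ S : Finset (ℕ × ℕ), IsPlacement (6 * u) (6 * t + 3) S := by
  set D : ℕ → Finset ℕ := fun ρ => if ρ = 2 then av 1 t else if ρ = 5 then av 0 t
    else if ρ < 2 then range (t + 1) else range t with hDdef
  have hD : ∀ ρ < 6, D ρ ⊆ range u := by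
    intro ρ _
    rw [hDdef]
    simp only
    split_ifs
    · exact av_subset ht
    · exact av_subset ht
    · exact range_subset' (by omega)
    · exact range_subset' (by omega)
  have d0 : (D 0).card = t + 1 := card_range _
  have d1 : (D 1).card = t + 1 := card_range _
  have d2 : (D 2).card = t := card_av _ _
  have d3 : (D 3).card = t := card_range _
  have d4 : (D 4).card = t := card_range _
  have d5 : (D 5).card = t := card_av _ _
  refine exists_half (C := mk 6 (6 * u) D) (h := 3 * u) (A := {5}) (B := {8})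
    (e := 1) (by ring) mk_subset ?_ ?_ ?_ ?_ rfl rfl ?_ (fun b => ?_) (fun k => ?_)
    (diag58 hu)
  · rw [singleton_subset_iff, mem_range]; omega
  · rw [singleton_subset_iff, mem_range]; omega
  · intro y hy
    rw [mem_singleton.1 hy, mem_mk]
    exact fun hh => notMem_av 0 t hh.2
  · intro y hy
    rw [mem_singleton.1 hy, mem_mk]
    exact fun hh => notMem_av 1 t hh.2
  · rw [card_six hD, d0, d1, d2, d3, d4, d5]; ring
  · have h1 := six_par hD b
    rw [d0, d1, d2, d3, d4, d5] at h1
    rw [filter_singleton, filter_singleton]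
    have : b % 2 = 0 ∨ b % 2 = 1 := by omega
    rcases this with h | h <;> rw [h] at h1 ⊢ <;> simp at h1 ⊢ <;> omega
  · have h1 := six_thd hD k
    rw [d0, d1, d2, d3, d4, d5] at h1
    have h2 := anti58 (u := u) hu k
    have h3 := antiC (n := 6 * u) (m := 2 * u) (C := mk 6 (6 * u) D) (by ring) mk_subset k
    split_ifs at h1 h2 <;> omega

/-! ### `c ≡ 4` -/

theorem facts24 {u : ℕ} (hu : 2 ≤ u) {p : ℕ × ℕ} (hp : p ∈ half (6 * u) (3 * u) {2, 4} {3, 7}) :
    p.1 < 6 * u ∧ ((p.1 < 3 * u ∧ (p.2 = 2 ∨ p.2 = 4)) ∨ (3 * u ≤ p.1 ∧ (p.2 = 3 ∨ p.2 = 7))) ∧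
      col (6 * u) p < 6 * u ∧ (2 * p.1 + p.2 = col (6 * u) p ∨
      2 * p.1 + p.2 = col (6 * u) p + 6 * u ∨ 2 * p.1 + p.2 = col (6 * u) p + 2 * (6 * u)) := by
  rcases mem_half.1 hp with hp | hp
  · have h1 := hp.2
    rw [mem_insert, mem_singleton] at h1
    exact ⟨by omega, Or.inl ⟨hp.1, h1⟩, col_spec (by omega) (by omega)⟩
  · have h1 := hp.2
    rw [mem_insert, mem_singleton] at h1
    exact ⟨by omega, Or.inr ⟨hp.1.1, h1⟩, col_spec (by omega) (by omega)⟩

/-- numbering of the cells -/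
def w4 (u : ℕ) (p : ℕ × ℕ) : ℕ :=
  if p.2 = 2 ∨ p.2 = 4 then (if 2 * p.1 + p.2 < 6 * u then 0 else 1)
  else (if 2 * p.1 + p.2 < 12 * u then 2 else 3)

theorem w4_inj {u : ℕ} (hu : 2 ≤ u) (k : ℕ) : Set.InjOn (w4 u)
    ((half (6 * u) (3 * u) {2, 4} {3, 7}).filter (fun p => p.1 + col (6 * u) p = k) :
      Set (ℕ × ℕ)) := by
  intro p hp q hq hpq
  obtain ⟨p1, p2⟩ := mem_filter.1 (mem_coe.1 hp)
  obtain ⟨q1, q2⟩ := mem_filter.1 (mem_coe.1 hq)
  have p3 := facts24 hu p1
  have q3 := facts24 hu q1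
  unfold w4 at hpq
  have key : p.1 = q.1 ∧ p.2 = q.2 := by
    rcases p3.2.1 with ⟨a1, a2 | a2⟩ | ⟨a1, a2 | a2⟩ <;>
      rcases q3.2.1 with ⟨b1, b2 | b2⟩ | ⟨b1, b2 | b2⟩ <;>
      rw [a2, b2] at hpq <;> simp at hpq <;> split_ifs at hpq <;> omega
  exact Prod.ext key.1 key.2

theorem anti24 {u : ℕ} (hu : 2 ≤ u) (k : ℕ) :
    ((half (6 * u) (3 * u) {2, 4} {3, 7}).filter (fun p => p.1 + col (6 * u) p = k)).card ≤
      if k % 3 = 1 then 4 else 2 := by
  have h : ∀ T : Finset ℕ, (∀ p ∈ (half (6 * u) (3 * u) {2, 4} {3, 7}).filter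
      (fun p => p.1 + col (6 * u) p = k), w4 u p ∈ T) →
      ((half (6 * u) (3 * u) {2, 4} {3, 7}).filter (fun p => p.1 + col (6 * u) p = k)).card ≤
        T.card := fun T hT =>
    card_le_card_of_injOn (w4 u) (fun p hp => mem_coe.2 (hT p (mem_coe.1 hp))) (w4_inj hu k)
  have hk : k % 3 = 1 ∨ k % 3 = 0 ∨ k % 3 = 2 := by omega
  rcases hk with hk | hk | hk
  · rw [if_pos hk]
    refine h (range 4) fun p _ => ?_
    rw [mem_range]
    unfold w4
    split_ifs <;> omega
  · rw [if_neg (by omega)]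
    refine h {2, 3} fun p hp => ?_
    obtain ⟨p1, p2⟩ := mem_filter.1 hp
    have p3 := facts24 hu p1
    rw [mem_insert, mem_singleton]
    unfold w4
    split_ifs <;> omega
  · rw [if_neg (by omega)]
    refine h {0, 1} fun p hp => ?_
    obtain ⟨p1, p2⟩ := mem_filter.1 hp
    have p3 := facts24 hu p1
    rw [mem_insert, mem_singleton]
    unfold w4
    split_ifs <;> omega

theorem anti24' {u : ℕ} (hu : 2 ≤ u) (k : ℕ) (hk : k % 3 = 2) (hk' : k ≠ 3 * u - 1) :
    ((half (6 * u) (3 * u) {2, 4} {3, 7}).filter (fun p => p.1 + col (6 * u) p = k)).card ≤ 1 := by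
  rw [card_le_one]
  intro p hp q hq
  obtain ⟨p1, p2⟩ := mem_filter.1 hp
  obtain ⟨q1, q2⟩ := mem_filter.1 hq
  have p3 := facts24 hu p1
  have q3 := facts24 hu q1
  have e1 : p.2 = 2 := by omega
  have e2 : q.2 = 2 := by omega
  refine Prod.ext ?_ (e1.trans e2.symm)
  omega

theorem diag24 {u : ℕ} (hu : 2 ≤ u) (d : ℤ) :
    ((half (6 * u) (3 * u) {2, 4} {3, 7}).filter
      (fun p => (p.1 : ℤ) - (col (6 * u) p : ℤ) = d)).card ≤ 2 := by
  conv_rhs => rw [← card_range 2]
  refine card_le_card_of_injOn (fun p => if p.2 = 2 ∨ p.2 = 3 then 0 else 1) ?_ ?_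
  · intro p _
    simp only [coe_range, Set.mem_Iio]
    split_ifs <;> omega
  · intro p hp q hq hpq
    obtain ⟨p1, p2⟩ := mem_filter.1 (mem_coe.1 hp)
    obtain ⟨q1, q2⟩ := mem_filter.1 (mem_coe.1 hq)
    have p3 := facts24 hu p1
    have q3 := facts24 hu q1
    simp only at hpq
    have key : p.1 = q.1 ∧ p.2 = q.2 := by
      rcases p3.2.1 with ⟨a1, a2 | a2⟩ | ⟨a1, a2 | a2⟩ <;>
        rcases q3.2.1 with ⟨b1, b2 | b2⟩ | ⟨b1, b2 | b2⟩ <;>
        rw [a2, b2] at hpq <;> simp at hpq <;> omega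
    exact Prod.ext key.1 key.2

/-- a short antidiagonal meets two thirds of the board only -/
theorem antiC_short {n m : ℕ} {C : Finset ℕ} (hn : n = 3 * m) (hC : C ⊆ range n) (k : ℕ)
    (hk : k < 2 * m) : ((range n ×ˢ C).filter (fun p => p.1 + col n p = k)).card ≤
      2 * (C.filter (fun κ => κ % 3 = k % 3)).card := by
  have hcard : 2 * (C.filter (fun κ => κ % 3 = k % 3)).card =
      ((C.filter (fun κ => κ % 3 = k % 3)) ×ˢ range 2).card := by
    rw [card_product, card_range, mul_comm]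
  rw [hcard]
  obtain ⟨h1, h2⟩ := antiC_aux hn hC k
  refine card_le_card_of_injOn _ (fun p hp => ?_) h2
  have h3 := mem_product.1 (h1 p (mem_coe.1 hp))
  refine mem_coe.2 (mem_product.2 ⟨h3.1, ?_⟩)
  obtain ⟨h4, h5⟩ := mem_filter.1 (mem_coe.1 hp)
  rw [mem_range]
  simp only
  unfold blk
  split_ifs <;> omega

theorem six_four {u t : ℕ} (hu : 2 ≤ u) (ht : t < u) :
    ∃ S : Finset (ℕ × ℕ), IsPlacement (6 * u) (6 * t + 4) S := by
  set D : ℕ → Finset ℕ := fun ρ => if ρ = 1 then av 1 t else if ρ = 0 ∨ ρ = 5 then range (t + 1)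
    else av 0 t with hDdef
  have hD : ∀ ρ < 6, D ρ ⊆ range u := by
    intro ρ _
    rw [hDdef]
    simp only
    split_ifs
    · exact av_subset ht
    · exact range_subset' (by omega)
    · exact av_subset ht
  have d0 : (D 0).card = t + 1 := card_range _
  have d1 : (D 1).card = t := card_av _ _
  have d2 : (D 2).card = t := card_av _ _
  have d3 : (D 3).card = t := card_av _ _
  have d4 : (D 4).card = t := card_av _ _
  have d5 : (D 5).card = t + 1 := card_range _
  have m0 : 0 ∈ mk 6 (6 * u) D := by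
    rw [mem_mk]
    refine ⟨by omega, ?_⟩
    change 0 ∈ range (t + 1)
    rw [mem_range]; omega
  refine exists_half (C := mk 6 (6 * u) D) (h := 3 * u) (A := {2, 4}) (B := {3, 7})
    (e := 2) (by ring) mk_subset ?_ ?_ ?_ ?_ rfl rfl ?_ (fun b => ?_) (fun k => ?_)
    (diag24 hu)
  · intro y hy
    rw [mem_insert, mem_singleton] at hy
    rw [mem_range]; omega
  · intro y hy
    rw [mem_insert, mem_singleton] at hy
    rw [mem_range]; omega
  · intro y hy
    rw [mem_insert, mem_singleton] at hy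
    rcases hy with rfl | rfl
    · rw [mem_mk]; exact fun hh => notMem_av 0 t hh.2
    · rw [mem_mk]; exact fun hh => notMem_av 0 t hh.2
  · intro y hy
    rw [mem_insert, mem_singleton] at hy
    rcases hy with rfl | rfl
    · rw [mem_mk]; exact fun hh => notMem_av 0 t hh.2
    · rw [mem_mk]; exact fun hh => notMem_av 1 t hh.2
  · rw [card_six hD, d0, d1, d2, d3, d4, d5]; ring
  · have h1 := six_par hD b
    rw [d0, d1, d2, d3, d4, d5] at h1
    have : b % 2 = 0 ∨ b % 2 = 1 := by omega
    have e0 : (({2, 4} : Finset ℕ).filter (fun κ => κ % 2 = 0)).card = 2 := by decide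
    have e1 : (({2, 4} : Finset ℕ).filter (fun κ => κ % 2 = 1)).card = 0 := by decide
    have e2 : (({3, 7} : Finset ℕ).filter (fun κ => κ % 2 = 0)).card = 0 := by decide
    have e3 : (({3, 7} : Finset ℕ).filter (fun κ => κ % 2 = 1)).card = 2 := by decide
    rcases this with h | h
    · rw [h] at h1 ⊢
      rw [e0, e2]
      simp only [if_true] at h1
      omega
    · rw [h] at h1 ⊢
      rw [e1, e3]
      simp only [one_ne_zero, if_false] at h1
      omega
  · have h1 := six_thd hD k
    rw [d0, d1, d2, d3, d4, d5] at h1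
    have h2 := anti24 (u := u) hu k
    have hk : k % 3 = 0 ∨ k % 3 = 1 ∨ k % 3 = 2 := by omega
    rcases hk with hk | hk | hk
    · have h3 := antiC_zero (n := 6 * u) (m := 2 * u) (by ring) mk_subset k m0 hk
      rw [if_pos hk] at h1
      rw [if_neg (by omega)] at h2
      omega
    · have h3 := antiC (n := 6 * u) (m := 2 * u) (C := mk 6 (6 * u) D) (by ring) mk_subset k
      rw [if_neg (by omega), if_pos hk] at h1
      rw [if_pos hk] at h2
      omega
    · rw [if_neg (by omega), if_neg (by omega)] at h1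
      by_cases hk' : k = 3 * u - 1
      · have h3 := antiC_short (n := 6 * u) (m := 2 * u) (C := mk 6 (6 * u) D) (by ring)
          mk_subset k (by omega)
        rw [if_neg (by omega)] at h2
        omega
      · have h3 := antiC (n := 6 * u) (m := 2 * u) (C := mk 6 (6 * u) D) (by ring) mk_subset k
        have h4 := anti24' hu k hk hk'
        omega

end Pool.Agent.R164.Coins
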